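import Mathlib

/-!
Clean rings whose units are weakly nil-clean: the question reduces to characteristic two.
-/

set_option autoImplicit false

namespace Pool.Agent.Results.MP_0ec41e_al.CharTwoReduction

universe u

/-- `a` is weakly nil-clean: `a = e + n` or `a = -e + n` with `e` idempotent and `n` nilpotent. -/
def IsWNC {R : Type u} [Ring R] (a : R) : Prop :=
  ∃ e n : R, IsIdempotentElem e ∧ IsNilpotent n ∧ (a = e + n ∨ a = -e + n)

/-- `a` is nil-clean: `a = e + n` with `e` idempotent and `n` nilpotent. -/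
def IsNC {R : Type u} [Ring R] (a : R) : Prop :=
  ∃ e n : R, IsIdempotentElem e ∧ IsNilpotent n ∧ a = e + n

/-- Every element is the sum of an idempotent and a unit. -/
def CleanRing (R : Type u) [Ring R] : Prop :=
  ∀ a : R, ∃ e v : R, IsIdempotentElem e ∧ IsUnit v ∧ a = e + v

/-- Every unit is weakly nil-clean. -/
def UWNC (R : Type u) [Ring R] : Prop := ∀ a : R, IsUnit a → IsWNC a

/-- Every unit is nil-clean. -/
def UNC (R : Type u) [Ring R] : Prop := ∀ a : R, IsUnit a → IsNC a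

section basic
variable {R : Type u} [Ring R]

/-- If `2 * e - 1 = f + n` then `2 ^ k * (1 - e) = 0` for some `k`. -/
theorem two_pow_of_eq {e f n : R} (he : e * e = e) (hf : f * f = f) (hn : IsNilpotent n)
    (h : 2 * e - 1 = f + n) : ∃ k : ℕ, (2 : R) ^ k * (1 - e) = 0 := by
  have he2 : ∀ x : R, e * (e * x) = e * x := fun x => by rw [← mul_assoc, he]
  have hf2 : ∀ x : R, f * (f * x) = f * x := fun x => by rw [← mul_assoc, hf]
  obtain ⟨z, hz⟩ : ∃ z : R, z = e + f - e * f - f * e := ⟨_, rfl⟩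
  have hze : Commute z e := by
    simp only [Commute, SemiconjBy, hz, sub_mul, add_mul, mul_sub, mul_add, mul_assoc, he, he2]
    abel
  have hzf : Commute z f := by
    simp only [Commute, SemiconjBy, hz, sub_mul, add_mul, mul_sub, mul_add, mul_assoc, hf, hf2]
    abel
  have hnn : n = 2 * e - 1 - f := by rw [h]; abel
  have hzn : Commute z n := by
    rw [hnn]
    exact (((Commute.ofNat_right z 2).mul_right hze).sub_right (Commute.one_right z)).sub_right hzf
  have hy : n * (1 + n) = 2 * z := by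
    rw [hnn, hz]
    have h2 : (2 : R) = 1 + 1 := by norm_num
    rw [h2]
    simp only [sub_mul, add_mul, mul_sub, mul_add, mul_assoc, he, he2, hf, hf2, one_mul, mul_one]
    abel
  obtain ⟨v, hv⟩ : ∃ v : Rˣ, (v : R) = 1 + n := (hn.isUnit_one_add)
  have hzv : Commute z ((v⁻¹ : Rˣ) : R) := by
    have : Commute z (v : R) := by rw [hv]; exact (Commute.one_right z).add_right hzn
    exact this.units_inv_right
  have hn2 : n = 2 * z * ((v⁻¹ : Rˣ) : R) := by
    rw [← hy, ← hv, mul_assoc, Units.mul_inv, mul_one]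
  obtain ⟨w, hw⟩ : ∃ w : R, w = ((v⁻¹ : Rˣ) : R) := ⟨_, rfl⟩
  rw [← hw] at hzv hn2
  -- 2 * (1 - e) = 2 * z * s
  have hkey : 2 * (1 - e) = 2 * z * (2 * (e * w + w * e - w) - 1) := by
    have h1 : f = 2 * e - 1 - n := by rw [hnn]; abel
    have h2 : (2 * e - 1 - n) * (2 * e - 1 - n) = 2 * e - 1 - n := by rw [← h1, hf]
    have h3 : 2 * (1 - e) = 2 * (e * n + n * e - n) - (n * (1 + n)) := by
      have h22 : (2 : R) = 1 + 1 := by norm_num
      rw [h22] at h2 ⊢
      simp only [sub_mul, add_mul, mul_sub, mul_add, mul_assoc, he, he2, one_mul, mul_one] at h2 ⊢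
      have h4 := sub_eq_zero.mpr h2
      rw [← sub_eq_zero, ← h4]
      abel
    rw [h3, hy]
    have h5 : e * n = 2 * z * (e * w) := by
      rw [hn2]
      rw [← mul_assoc e (2 * z) w, ((Commute.ofNat_left 2 e).mul_left hze).eq.symm, mul_assoc]
    have h6 : n * e = 2 * z * (w * e) := by rw [hn2, mul_assoc]
    have h7 : 2 * (e * n + n * e - n) = 2 * z * (2 * (e * w + w * e - w)) := by
      rw [h5, h6, hn2, ← mul_add, ← mul_sub, ← mul_assoc 2 (2 * z),
        (Commute.ofNat_left 2 (2 * z)).eq, mul_assoc (2 * z) 2]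
    rw [h7, mul_sub (2 * z), mul_one]
  have hnil : IsNilpotent (2 * z) := by
    rw [← hy]
    obtain ⟨k, hk⟩ := hn
    refine ⟨k, ?_⟩
    have hc : Commute n (1 + n) := (Commute.one_right n).add_right (Commute.refl n)
    rw [hc.mul_pow, hk, zero_mul]
  have hnil2 : IsNilpotent (2 * (1 - e)) := by
    rw [hkey]
    obtain ⟨k, hk⟩ := hnil
    refine ⟨k, ?_⟩
    have hc : Commute (2 * z) (2 * (e * w + w * e - w) - 1) := by
      have h2c : ∀ x : R, Commute (2 : R) x := fun x => Commute.ofNat_left 2 x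
      have hcc : ∀ x : R, Commute z x → Commute (2 * z) x := fun x hx => (h2c x).mul_left hx
      refine hcc _ ?_
      refine Commute.sub_right ?_ (Commute.one_right z)
      refine Commute.mul_right (Commute.ofNat_right z 2) ?_
      exact ((hze.mul_right hzv).add_right (hzv.mul_right hze)).sub_right hzv
    rw [hc.mul_pow, hk, zero_mul]
  obtain ⟨k, hk⟩ := hnil2
  refine ⟨k, ?_⟩
  have hid : IsIdempotentElem (1 - e) := IsIdempotentElem.one_sub he
  rw [(Commute.ofNat_left 2 (1 - e)).mul_pow] at hk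
  rcases Nat.eq_zero_or_pos k with h0 | h0
  · subst h0
    simp only [pow_zero, mul_one] at hk
    rw [pow_zero, one_mul]
    have : (1 : R) - e = 1 * (1 - e) := by rw [one_mul]
    rw [this, hk, zero_mul]
  · rw [hid.pow_eq (by omega)] at hk
    exact hk

/-- In a UWNC ring every idempotent is killed by a power of two, or its complement is. -/
theorem idem_dichotomy (hR : UWNC R) {e : R} (he : IsIdempotentElem e) :
    (∃ k : ℕ, (2 : R) ^ k * e = 0) ∨ ∃ k : ℕ, (2 : R) ^ k * (1 - e) = 0 := by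
  have he' : e * e = e := he
  have hu : IsUnit (2 * e - 1) := by
    have h1 : (2 * e - 1) * (2 * e - 1) = 1 := by
      have he2 : ∀ x : R, e * (e * x) = e * x := fun x => by rw [← mul_assoc, he']
      have h22 : (2 : R) = 1 + 1 := by norm_num
      rw [h22]
      simp only [sub_mul, add_mul, mul_sub, mul_add, mul_assoc, he', he2, one_mul, mul_one]
      abel
    exact ⟨⟨2 * e - 1, 2 * e - 1, h1, h1⟩, rfl⟩
  obtain ⟨f, n, hf, hn, h | h⟩ := hR _ hu
  · exact Or.inr (two_pow_of_eq he' hf hn h)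
  · left
    have hc : IsIdempotentElem (1 - e) := IsIdempotentElem.one_sub he
    obtain ⟨k, hk⟩ := two_pow_of_eq (e := 1 - e) (f := f) (n := -n) hc hf hn.neg (by
      have : 2 * (1 - e) - 1 = -(2 * e - 1) := by
        have h22 : (2 : R) = 1 + 1 := by norm_num
        rw [h22]
        simp only [add_mul, mul_sub, one_mul, mul_one]
        abel
      rw [this, h]; abel)
    refine ⟨k, ?_⟩
    rw [sub_sub_cancel] at hk
    exact hk

/-- `x` is killed by a power of two. -/
def T (x : R) : Prop := ∃ k : ℕ, (2 : R) ^ k * x = 0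

theorem two_pow_comm (k : ℕ) (x : R) : Commute ((2 : R) ^ k) x :=
  (Commute.ofNat_left 2 x).pow_left k

theorem T.add {x y : R} (hx : T x) (hy : T y) : T (x + y) := by
  obtain ⟨k, hk⟩ := hx
  obtain ⟨l, hl⟩ := hy
  refine ⟨k + l, ?_⟩
  rw [mul_add, pow_add]
  nth_rewrite 1 [(two_pow_comm k ((2 : R) ^ l)).eq]
  rw [mul_assoc, hk, mul_assoc, hl, mul_zero, mul_zero, add_zero]

theorem T.mul_right {x : R} (hx : T x) (y : R) : T (x * y) := by
  obtain ⟨k, hk⟩ := hx
  exact ⟨k, by rw [← mul_assoc, hk, zero_mul]⟩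

theorem T.neg {x : R} (hx : T x) : T (-x) := by
  obtain ⟨k, hk⟩ := hx
  exact ⟨k, by rw [mul_neg, hk, neg_zero]⟩

theorem T.congr {x y : R} (hx : T x) (h : x = y) : T y := h ▸ hx

/-- If `x` commutes with the nilpotent `n` and `x - n` is 2-torsion, then so is a power of `x`. -/
theorem T.pow_of_sub {x n : R} (hc : Commute x n) (hn : IsNilpotent n) (h : T (x - n)) :
    ∃ m : ℕ, T (x ^ m) := by
  obtain ⟨m, hm⟩ := hn
  refine ⟨m, ?_⟩
  have h1 := hc.mul_geom_sum₂ m
  rw [hm, sub_zero] at h1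
  rw [← h1]
  exact h.mul_right _

/-- Units are plus or minus one, up to nilpotents and 2-torsion. -/
theorem unit_form (hR : UWNC R) {v : R} (hv : IsUnit v) :
    T (1 : R) ∨ ∃ n : R, IsNilpotent n ∧ (T (v - (1 + n)) ∨ T (v - (-1 + n))) := by
  obtain ⟨f, n, hf, hn, h⟩ := hR v hv
  rcases idem_dichotomy hR hf with hk | hk
  · left
    have hk' : T f := hk
    have h1 : T (v - n) := by
      rcases h with h | h
      · exact hk'.congr (by rw [h]; abel)
      · exact hk'.neg.congr (by rw [h]; abel)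
    obtain ⟨m, hm⟩ := hn
    -- (v - n) is torsion, so v^m is torsion
    have h2 : ∀ j : ℕ, T (v ^ j - n ^ j) := by
      intro j
      induction j with
      | zero => exact ⟨0, by simp⟩
      | succ j ih =>
        have h3 : T ((v ^ j - n ^ j) * v) := ih.mul_right v
        have h4 : T (n ^ j * (v - n)) := by
          obtain ⟨l, hl⟩ := h1
          refine ⟨l, ?_⟩
          rw [← mul_assoc, (two_pow_comm l (n ^ j)).eq, mul_assoc, hl, mul_zero]
        refine (h3.add h4).congr ?_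
        rw [pow_succ, pow_succ, sub_mul, mul_sub]
        abel
    have h5 := h2 m
    rw [hm, sub_zero] at h5
    obtain ⟨w, hw⟩ := hv
    have h6 : T (v ^ m * ((w⁻¹ ^ m : Rˣ) : R)) := h5.mul_right _
    refine h6.congr ?_
    rw [← hw, ← Units.val_pow_eq_pow_val, ← Units.val_mul, inv_pow, mul_inv_cancel, Units.val_one]
  · right
    have hk' : T (1 - f) := hk
    refine ⟨n, hn, ?_⟩
    rcases h with h | h
    · left
      exact hk'.neg.congr (by rw [h]; abel)
    · right
      exact hk'.congr (by rw [h]; abel)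

/-- Every element of a clean UWNC ring is one of the integers `-1, 0, 1, 2` up to nilpotents and
2-torsion, unless the ring is 2-torsion. -/
theorem elem_form (hC : CleanRing R) (hR : UWNC R) (a : R) :
    T (1 : R) ∨ ∃ (j : ℤ) (n : R), (j = -1 ∨ j = 0 ∨ j = 1 ∨ j = 2) ∧ IsNilpotent n ∧
      T (a - ((j : R) + n)) := by
  obtain ⟨e, v, he, hv, rfl⟩ := hC a
  rcases unit_form hR hv with h | ⟨n, hn, h⟩
  · exact Or.inl h
  right
  rcases idem_dichotomy hR he with hk | hk
  · have hk' : T e := hk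
    rcases h with h | h
    · exact ⟨1, n, by norm_num, hn, (hk'.add h).congr (by push_cast; abel)⟩
    · exact ⟨-1, n, by norm_num, hn, (hk'.add h).congr (by push_cast; abel)⟩
  · have hk' : T (1 - e) := hk
    rcases h with h | h
    · refine ⟨2, n, by norm_num, hn, (hk'.neg.add h).congr ?_⟩
      push_cast
      have h22 : (2 : R) = 1 + 1 := by norm_num
      rw [h22]
      abel
    · refine ⟨0, n, by norm_num, hn, (hk'.neg.add h).congr ?_⟩
      push_cast
      abel

/-- In a clean UWNC ring six is nilpotent. -/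
theorem six_nilpotent (hC : CleanRing R) (hR : UWNC R) :
    ∃ M : ℕ, 1 ≤ M ∧ (2 : R) ^ M * (3 : R) ^ M = 0 := by
  have key : ∃ k m : ℕ, (2 : R) ^ k * (3 : R) ^ m = 0 := by
    rcases elem_form hC hR (3 : R) with ⟨k, hk⟩ | ⟨j, n, hj, hn, h⟩
    · exact ⟨k, 0, by simpa using hk⟩
    · have h1 : T ((((3 - j : ℤ)) : R) - n) := h.congr (by push_cast; abel)
      obtain ⟨m, k, hm⟩ := T.pow_of_sub (Int.cast_commute _ _) hn h1
      rcases hj with rfl | rfl | rfl | rfl
      · refine ⟨k + 2 * m, 0, ?_⟩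
        have h2 : (((3 - (-1) : ℤ)) : R) = (2 : R) ^ 2 := by norm_num
        rw [h2, ← pow_mul, ← pow_add] at hm
        rw [hm, zero_mul]
      · refine ⟨k, m, ?_⟩
        have h2 : (((3 - 0 : ℤ)) : R) = (3 : R) := by norm_num
        rw [h2] at hm
        exact hm
      · refine ⟨k + m, 0, ?_⟩
        have h2 : (((3 - 1 : ℤ)) : R) = (2 : R) := by norm_num
        rw [h2, ← pow_add] at hm
        rw [hm, zero_mul]
      · refine ⟨k, 0, ?_⟩
        have h2 : (((3 - 2 : ℤ)) : R) = (1 : R) := by norm_num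
        rw [h2, one_pow, mul_one] at hm
        rw [hm, zero_mul]
  obtain ⟨k, m, h⟩ := key
  refine ⟨k + m + 1, by omega, ?_⟩
  have h1 : (2 : R) ^ (k + m + 1) = (2 : R) ^ (m + 1) * (2 : R) ^ k := by
    rw [← pow_add]; congr 1; omega
  have h2 : (3 : R) ^ (k + m + 1) = (3 : R) ^ m * (3 : R) ^ (k + 1) := by
    rw [← pow_add]; congr 1; omega
  rw [h1, h2, mul_assoc, ← mul_assoc ((2 : R) ^ k), h, zero_mul, mul_zero]

/-- The central idempotent splitting off the 3-primary part. -/
theorem exists_split (hC : CleanRing R) (hR : UWNC R) :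
    ∃ c : R, c * c = c ∧ (∀ x : R, c * x = x * c) ∧ (∃ M : ℕ, (2 : R) ^ M * c = 0) ∧
      IsNilpotent (3 * (1 - c)) ∧ (∀ x : R, T x → (1 - c) * x = 0) := by
  obtain ⟨M, hM, h6⟩ := six_nilpotent hC hR
  have hcop : IsCoprime ((2 : ℤ) ^ M) ((3 : ℤ) ^ M) := by
    apply IsCoprime.pow
    exact ⟨-1, 1, by norm_num⟩
  obtain ⟨x, y, hxy⟩ := hcop
  have hxyR : (x : R) * 2 ^ M + (y : R) * 3 ^ M = 1 := by exact_mod_cast congrArg (Int.cast (R := R)) hxy
  have hcast : ((y * 3 ^ M : ℤ) : R) = (y : R) * 3 ^ M := by push_cast; rfl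
  have h1c : 1 - ((y * 3 ^ M : ℤ) : R) = (x : R) * 2 ^ M := by
    rw [hcast, ← hxyR]; abel
  have hcen : ∀ z : R, ((y * 3 ^ M : ℤ) : R) * z = z * ((y * 3 ^ M : ℤ) : R) :=
    fun z => (Int.cast_commute _ _).eq
  have h3 : (3 : R) ^ M * (1 - ((y * 3 ^ M : ℤ) : R)) = 0 := by
    rw [h1c, ← mul_assoc]
    have : (3 : R) ^ M * (x : R) = (x : R) * 3 ^ M := ((Commute.ofNat_left 3 (x : R)).pow_left M).eq
    rw [this, mul_assoc, ← (two_pow_comm M ((3 : R) ^ M)).eq, h6, mul_zero]
  refine ⟨((y * 3 ^ M : ℤ) : R), ?_, hcen, ⟨M, ?_⟩, ⟨M, ?_⟩, ?_⟩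
  · have h0 : ((y * 3 ^ M : ℤ) : R) * (1 - ((y * 3 ^ M : ℤ) : R)) = 0 := by
      nth_rewrite 1 [hcast]
      rw [mul_assoc, h3, mul_zero]
    rw [mul_sub, mul_one, sub_eq_zero] at h0
    exact h0.symm
  · rw [hcast, ← mul_assoc, (two_pow_comm M (y : R)).eq, mul_assoc, h6, mul_zero]
  · rw [(Commute.ofNat_left 3 _).mul_pow]
    have hid : IsIdempotentElem (1 - ((y * 3 ^ M : ℤ) : R)) := by
      apply IsIdempotentElem.one_sub
      have h0 : ((y * 3 ^ M : ℤ) : R) * (1 - ((y * 3 ^ M : ℤ) : R)) = 0 := by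
        nth_rewrite 1 [hcast]
        rw [mul_assoc, h3, mul_zero]
      rw [mul_sub, mul_one, sub_eq_zero] at h0
      exact h0.symm
    rw [hid.pow_eq (by omega), h3]
  · rintro z ⟨k, hk⟩
    have hcop2 : IsCoprime ((2 : ℤ) ^ k) ((3 : ℤ) ^ M) := by
      apply IsCoprime.pow
      exact ⟨-1, 1, by norm_num⟩
    obtain ⟨s, t, hst⟩ := hcop2
    have hstR : (s : R) * 2 ^ k + (t : R) * 3 ^ M = 1 := by
      exact_mod_cast congrArg (Int.cast (R := R)) hst
    obtain ⟨d, hd⟩ : ∃ d : R, d = 1 - ((y * 3 ^ M : ℤ) : R) := ⟨_, rfl⟩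
    rw [← hd] at h3 ⊢
    have hdc : d * z = z * d := by rw [hd, sub_mul, mul_sub, hcen, one_mul, mul_one]
    calc d * z = ((s : R) * 2 ^ k + (t : R) * 3 ^ M) * (d * z) := by rw [hstR, one_mul]
      _ = (s : R) * (2 ^ k * z) * d + (t : R) * (3 ^ M * d) * z := by
          rw [add_mul]
          congr 1
          · rw [hdc]; simp only [mul_assoc]
          · simp only [mul_assoc]
      _ = 0 := by rw [hk, h3]; simp

/-- Elements of the 3-primary part are `0, 1, -1` up to nilpotents. -/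
theorem part_three (hC : CleanRing R) (hR : UWNC R) {c : R} (hcc : c * c = c)
    (hcen : ∀ x : R, c * x = x * c) (h3 : IsNilpotent (3 * (1 - c)))
    (hT : ∀ x : R, T x → (1 - c) * x = 0) (a : R) :
    ∃ (j : ℤ) (n : R), (j = 0 ∨ j = 1 ∨ j = -1) ∧ IsNilpotent n ∧ (1 - c) * n = n ∧
      (1 - c) * a = (j : R) * (1 - c) + n := by
  obtain ⟨d, hd⟩ : ∃ d : R, d = 1 - c := ⟨_, rfl⟩
  have hdd : d * d = d := by
    rw [hd]; exact IsIdempotentElem.one_sub (a := c) hcc
  have hdcen : ∀ x : R, Commute d x := fun x => by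
    rw [hd]; exact (Commute.one_left x).sub_left (hcen x)
  rw [← hd] at h3 hT ⊢
  have hdn : ∀ n : R, IsNilpotent n → IsNilpotent (d * n) := fun n hn => by
    obtain ⟨k, hk⟩ := hn
    exact ⟨k, by rw [(hdcen n).mul_pow, hk, mul_zero]⟩
  rcases elem_form hC hR a with h | ⟨j, n, hj, hn, h⟩
  · have h1 : d = 0 := by
      have := hT 1 h
      rwa [mul_one] at this
    refine ⟨0, 0, Or.inl rfl, IsNilpotent.zero, by simp, ?_⟩
    rw [h1]; simp
  · have h1 : d * a = (j : R) * d + d * n := by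
      have h2 := hT _ h
      rw [mul_sub, sub_eq_zero] at h2
      rw [h2, mul_add, (hdcen (j : R)).eq]
    rcases hj with rfl | rfl | rfl | rfl
    · exact ⟨-1, d * n, by norm_num, hdn n hn, by rw [← mul_assoc, hdd], h1⟩
    · exact ⟨0, d * n, by norm_num, hdn n hn, by rw [← mul_assoc, hdd], h1⟩
    · exact ⟨1, d * n, by norm_num, hdn n hn, by rw [← mul_assoc, hdd], h1⟩
    · refine ⟨-1, 3 * d + d * n, by norm_num, ?_, ?_, ?_⟩
      · have hc : Commute (3 * d) (d * n) :=
          (Commute.ofNat_left 3 _).mul_left (hdcen _)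
        exact hc.isNilpotent_add h3 (hdn n hn)
      · rw [mul_add, ← mul_assoc, ← mul_assoc, (hdcen 3).eq, mul_assoc 3 d d, hdd]
      · rw [h1]
        have h33 : (3 : R) = 1 + 1 + 1 := by norm_num
        have h22 : ((2 : ℤ) : R) = 1 + 1 := by norm_num
        rw [h33, h22]
        push_cast
        simp only [add_mul, one_mul, neg_mul]
        abel

/-- The ideal generated by `2` and `1 - c`, for `c` central. -/
def redI (c : R) (hcen : ∀ x : R, c * x = x * c) : Ideal R where
  carrier := {x | ∃ p q : R, x = 2 * p + (1 - c) * q}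
  add_mem' := by
    rintro x y ⟨p, q, rfl⟩ ⟨p', q', rfl⟩
    exact ⟨p + p', q + q', by rw [mul_add, mul_add]; abel⟩
  zero_mem' := ⟨0, 0, by simp⟩
  smul_mem' := by
    rintro r x ⟨p, q, rfl⟩
    refine ⟨r * p, r * q, ?_⟩
    have h1 : r * (1 - c) = (1 - c) * r := by rw [mul_sub, sub_mul, hcen, mul_one, one_mul]
    rw [smul_eq_mul, mul_add, ← mul_assoc, ← mul_assoc, h1, (Commute.ofNat_right r 2).eq, mul_assoc,
      mul_assoc]

theorem redI_two (c : R) (hcen : ∀ x : R, c * x = x * c) : (redI c hcen).IsTwoSided := by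
  constructor
  rintro a b ⟨p, q, rfl⟩
  exact ⟨p * b, q * b, by rw [add_mul, mul_assoc, mul_assoc]⟩

/-- The ideal generated by `2 * c`, for `c` central. -/
def nilI (c : R) (hcen : ∀ x : R, c * x = x * c) : Ideal R where
  carrier := {x | ∃ p : R, x = 2 * c * p}
  add_mem' := by
    rintro x y ⟨p, rfl⟩ ⟨p', rfl⟩
    exact ⟨p + p', by rw [mul_add]⟩
  zero_mem' := ⟨0, by simp⟩
  smul_mem' := by
    rintro r x ⟨p, rfl⟩
    refine ⟨r * p, ?_⟩
    have h1 : Commute (2 * c) r := (Commute.ofNat_left 2 r).mul_left (hcen r)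
    rw [smul_eq_mul, ← mul_assoc, ← h1.eq, mul_assoc]

theorem nilI_two (c : R) (hcen : ∀ x : R, c * x = x * c) : (nilI c hcen).IsTwoSided := by
  constructor
  rintro a b ⟨p, rfl⟩
  exact ⟨p * b, by rw [mul_assoc]⟩

/-- An element with one-sided products units is a unit. -/
theorem isUnit_of_both {x y : R} (h1 : IsUnit (x * y)) (h2 : IsUnit (y * x)) : IsUnit x := by
  obtain ⟨w, hw⟩ := h1
  obtain ⟨w', hw'⟩ := h2
  have ha : x * (y * ((w⁻¹ : Rˣ) : R)) = 1 := by rw [← mul_assoc, ← hw, Units.mul_inv]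
  have hb : ((w'⁻¹ : Rˣ) : R) * y * x = 1 := by rw [mul_assoc, ← hw', Units.inv_mul]
  have hc : ((w'⁻¹ : Rˣ) : R) * y = y * ((w⁻¹ : Rˣ) : R) := left_inv_eq_right_inv hb ha
  exact ⟨⟨x, y * ((w⁻¹ : Rˣ) : R), ha, by rw [← hc]; exact hb⟩, rfl⟩

end basic

/-- Every element is weakly nil-clean. -/
def WNCRing (R : Type u) [Ring R] : Prop := ∀ a : R, IsWNC a

/-- Every element is nil-clean. -/
def NCRing (R : Type u) [Ring R] : Prop := ∀ a : R, IsNC a

/-- The reduction: if all clean rings of characteristic two with nil-clean units are nil-clean, then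
all clean UWNC rings are weakly nil-clean. -/
theorem reduction (H : ∀ (S : Type u) [Ring S], (2 : S) = 0 → CleanRing S → UNC S → NCRing S)
    (R : Type u) [Ring R] (hC : CleanRing R) (hR : UWNC R) : WNCRing R := by
  obtain ⟨c, hcc, hcen, ⟨M, hM⟩, h3, hT⟩ := exists_split hC hR
  have hcomm : ∀ x : R, Commute c x := hcen
  have := redI_two c hcen
  have := nilI_two c hcen
  have h2c : ∀ x : R, Commute (2 * c) x := fun x => (Commute.ofNat_left 2 x).mul_left (hcomm x)
  have hnil2c : ∀ p : R, IsNilpotent (2 * c * p) := by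
    intro p
    refine ⟨M + 1, ?_⟩
    rw [(h2c p).mul_pow, (Commute.ofNat_left 2 c).mul_pow]
    have hid : IsIdempotentElem c := hcc
    rw [hid.pow_eq (by omega), pow_succ', mul_assoc 2, hM, mul_zero, zero_mul]
  have hdc : (1 - c) * c = 0 := by rw [sub_mul, one_mul, hcc, sub_self]
  have hcd : c * (1 - c) = 0 := by rw [mul_sub, mul_one, hcc, sub_self]
  have hdd : (1 - c) * (1 - c) = 1 - c := IsIdempotentElem.one_sub (a := c) hcc
  have hdcen : ∀ x : R, Commute (1 - c) x := fun x => (Commute.one_left x).sub_left (hcomm x)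
  obtain ⟨π, hπ⟩ : ∃ π : R →+* R ⧸ redI c hcen, π = Ideal.Quotient.mk (redI c hcen) := ⟨_, rfl⟩
  have hπs : Function.Surjective π := by rw [hπ]; exact Ideal.Quotient.mk_surjective
  have hπ0 : ∀ x : R, π x = 0 ↔ ∃ p q : R, x = 2 * p + (1 - c) * q := by
    intro x
    rw [hπ, Ideal.Quotient.eq_zero_iff_mem]
    rfl
  have hπd : π (1 - c) = 0 := (hπ0 _).mpr ⟨0, 1, by simp⟩
  have hπc : π c = 1 := by
    rw [map_sub, map_one, sub_eq_zero] at hπd
    exact hπd.symm
  have hS2 : (2 : R ⧸ redI c hcen) = 0 := by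
    have h1 : π 2 = 0 := (hπ0 _).mpr ⟨1, 0, by simp⟩
    rwa [map_ofNat] at h1
  have hneg : ∀ x : R ⧸ redI c hcen, -x = x := by
    intro x
    rw [neg_eq_iff_add_eq_zero, ← two_mul, hS2, zero_mul]
  have hmapid : ∀ e : R, IsIdempotentElem e → IsIdempotentElem (π e) := fun e he => he.map π
  have hSC : CleanRing (R ⧸ redI c hcen) := by
    intro x
    obtain ⟨a, rfl⟩ := hπs x
    obtain ⟨e, v, he, hv, rfl⟩ := hC a
    exact ⟨π e, π v, hmapid e he, hv.map π, map_add π e v⟩
  have hlift : ∀ a b : R, π a * π b = 1 → IsUnit ((c * a + (1 - c)) * (c * b + (1 - c))) := by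
    intro a b hab
    have h1 : π (a * b - 1) = 0 := by rw [map_sub, map_mul, hab, map_one, sub_self]
    obtain ⟨p, q, hpq⟩ := (hπ0 _).mp h1
    have h2 : (c * a + (1 - c)) * (c * b + (1 - c)) = 2 * c * p + 1 := by
      have h3 : (c * a) * (c * b) = c * (a * b) := by
        rw [mul_assoc, ← mul_assoc a c b, ← hcen a, mul_assoc c a b, ← mul_assoc c c, hcc]
      have h4 : (c * a) * (1 - c) = 0 := by
        rw [mul_assoc, ← (hdcen a).eq, ← mul_assoc, hcd, zero_mul]
      have h5 : (1 - c) * (c * b) = 0 := by rw [← mul_assoc, hdc, zero_mul]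
      have h6 : a * b = 1 + (2 * p + (1 - c) * q) := by rw [← hpq]; abel
      rw [add_mul, mul_add, mul_add, h3, h4, h5, hdd, h6, mul_add, mul_add, ← mul_assoc c (1 - c),
        hcd, ← mul_assoc c 2, (Commute.ofNat_right c 2).eq]
      simp only [mul_one, zero_mul]
      abel
    rw [h2]
    exact (hnil2c p).isUnit_add_one
  have hSU : UNC (R ⧸ redI c hcen) := by
    intro x hx
    obtain ⟨w, hw⟩ := hx
    obtain ⟨a, ha⟩ := hπs (w : R ⧸ redI c hcen)
    obtain ⟨b, hb⟩ := hπs ((w⁻¹ : (R ⧸ redI c hcen)ˣ) : R ⧸ redI c hcen)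
    have hu : IsUnit (c * a + (1 - c)) := by
      apply isUnit_of_both (y := c * b + (1 - c))
      · exact hlift a b (by rw [ha, hb, Units.mul_inv])
      · exact hlift b a (by rw [ha, hb, Units.inv_mul])
    have hx : π (c * a + (1 - c)) = x := by
      rw [map_add, map_mul, hπc, hπd, one_mul, add_zero, ha, hw]
    obtain ⟨f, n, hf, hn, h | h⟩ := hR _ hu
    · exact ⟨π f, π n, hmapid f hf, hn.map π, by rw [← hx, h, map_add]⟩
    · exact ⟨π f, π n, hmapid f hf, hn.map π, by rw [← hx, h, map_add, map_neg, hneg]⟩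
  have hSN := H (R ⧸ redI c hcen) hS2 hSC hSU
  have hpartC : ∀ a : R, ∃ g n : R, IsIdempotentElem g ∧ c * g = g ∧ IsNilpotent n ∧ c * n = n ∧
      c * a = g + n := by
    intro a
    obtain ⟨e, m, he, hm, ham⟩ := hSN (π a)
    obtain ⟨e0, rfl⟩ := hπs e
    obtain ⟨φ, hφ⟩ : ∃ φ : R →+* R ⧸ nilI c hcen, φ = Ideal.Quotient.mk (nilI c hcen) := ⟨_, rfl⟩
    have hφ0 : ∀ x : R, φ x = 0 ↔ ∃ p : R, x = 2 * c * p := by
      intro x
      rw [hφ, Ideal.Quotient.eq_zero_iff_mem]
      rfl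
    have he1 : π (e0 * e0 - e0) = 0 := by
      rw [map_sub, map_mul]
      have : π e0 * π e0 = π e0 := he
      rw [this, sub_self]
    obtain ⟨p, q, hpq⟩ := (hπ0 _).mp he1
    have hx0 : IsIdempotentElem (φ (c * e0)) := by
      have h1 : φ ((c * e0) * (c * e0) - c * e0) = 0 := by
        rw [hφ0]
        refine ⟨p, ?_⟩
        have h3 : (c * e0) * (c * e0) = c * (e0 * e0) := by
          rw [mul_assoc, ← mul_assoc e0 c e0, ← hcen e0, mul_assoc c e0 e0, ← mul_assoc c c, hcc]
        rw [h3, ← mul_sub, hpq, mul_add, ← mul_assoc c (1 - c), hcd, zero_mul, add_zero,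
          ← mul_assoc, (Commute.ofNat_right c 2).eq]
      rw [map_sub, map_mul, sub_eq_zero] at h1
      exact h1
    obtain ⟨g0, hg0, hg0'⟩ := exists_isIdempotentElem_eq_of_ker_isNilpotent φ (by
      intro x hx
      rw [RingHom.mem_ker, hφ0] at hx
      obtain ⟨p, rfl⟩ := hx
      exact hnil2c p) (φ (c * e0)) ⟨c * e0, rfl⟩ hx0
    have hgg : c * (c * g0) = c * g0 := by rw [← mul_assoc, hcc]
    have hφg : φ (c * g0 - c * e0) = 0 := by
      rw [map_sub, map_mul, hg0', ← map_mul, ← mul_assoc, hcc, sub_self]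
    obtain ⟨p', hp'⟩ := (hφ0 _).mp hφg
    have hπg : π (c * g0) = π e0 := by
      have h1 : π (c * g0 - c * e0) = 0 := by
        rw [hp', mul_assoc]
        exact (hπ0 _).mpr ⟨c * p', 0, by simp⟩
      rw [map_sub, sub_eq_zero] at h1
      rw [h1, map_mul, hπc, one_mul]
    refine ⟨c * g0, c * a - c * g0, ?_, hgg, ?_, ?_, by abel⟩
    · have hg : g0 * g0 = g0 := hg0
      change (c * g0) * (c * g0) = c * g0
      rw [mul_assoc, ← mul_assoc g0 c g0, ← hcen g0, mul_assoc c g0 g0, ← mul_assoc c c, hcc, hg]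
    · have h1 : π (c * a - c * g0) = m := by
        rw [map_sub, hπg, map_mul, hπc, one_mul, ham]
        abel
      obtain ⟨k, hk⟩ := hm
      have h2 : π ((c * a - c * g0) ^ k) = 0 := by rw [map_pow, h1, hk]
      obtain ⟨p2, q2, h3⟩ := (hπ0 _).mp h2
      have h4 : c * (c * a - c * g0) ^ k = 2 * c * p2 := by
        rw [h3, mul_add, ← mul_assoc c (1 - c), hcd, zero_mul, add_zero, ← mul_assoc,
          (Commute.ofNat_right c 2).eq]
      have h5 : (c * a - c * g0) ^ (k + 1) = (2 * c * p2) * (c * a - c * g0) := by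
        rw [← h4, pow_succ]
        have h6 : c * (c * a - c * g0) = c * a - c * g0 := by
          rw [mul_sub, ← mul_assoc, ← mul_assoc, hcc]
        nth_rewrite 2 [← h6]
        rw [← mul_assoc, ← hcen, mul_assoc]
      have h7 : IsNilpotent ((c * a - c * g0) ^ (k + 1)) := by
        rw [h5, mul_assoc]
        exact hnil2c _
      obtain ⟨m', hm'⟩ := h7
      exact ⟨(k + 1) * m', by rw [pow_mul]; exact hm'⟩
    · rw [mul_sub, ← mul_assoc, ← mul_assoc, hcc]
  intro a
  obtain ⟨j, n, hj, hn, hdn, h⟩ := part_three hC hR hcc hcen h3 hT a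
  have hsplit : a = c * a + (1 - c) * a := by rw [sub_mul, one_mul]; abel
  have hsumnil : ∀ n1 n2 : R, IsNilpotent n1 → c * n1 = n1 → IsNilpotent n2 → (1 - c) * n2 = n2 →
      IsNilpotent (n1 + n2) := by
    intro n1 n2 hn1 hc1 hn2 hd2
    have hz1 : n1 * n2 = 0 := by
      rw [← hc1, ← hd2, mul_assoc, ← mul_assoc n1, ← (hdcen n1).eq, mul_assoc, ← mul_assoc c,
        hcd, zero_mul]
    have hz2 : n2 * n1 = 0 := by
      rw [← hc1, ← hd2, mul_assoc, ← mul_assoc n2, ← hcen n2, mul_assoc, ← mul_assoc (1 - c),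
        hdc, zero_mul]
    have hcm : Commute n1 n2 := by rw [Commute, SemiconjBy, hz1, hz2]
    exact hcm.isNilpotent_add hn1 hn2
  have hsumid : ∀ g : R, IsIdempotentElem g → c * g = g → IsIdempotentElem (g + (1 - c)) := by
    intro g hg hcg
    have hg' : g * g = g := hg
    have hz1 : g * (1 - c) = 0 := by
      rw [← hcg, mul_assoc, ← (hdcen g).eq, ← mul_assoc, hcd, zero_mul]
    have hz2 : (1 - c) * g = 0 := by rw [(hdcen g).eq, hz1]
    change (g + (1 - c)) * (g + (1 - c)) = g + (1 - c)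
    rw [add_mul, mul_add, mul_add, hg', hz1, hz2, hdd, add_zero, zero_add]
  rcases hj with rfl | rfl | rfl
  · obtain ⟨g, n1, hg, hcg, hn1, hcn1, hca⟩ := hpartC a
    refine ⟨g, n1 + n, hg, hsumnil n1 n hn1 hcn1 hn hdn, Or.inl ?_⟩
    rw [hsplit, hca, h]
    push_cast
    rw [zero_mul]
    abel
  · obtain ⟨g, n1, hg, hcg, hn1, hcn1, hca⟩ := hpartC a
    refine ⟨g + (1 - c), n1 + n, hsumid g hg hcg, hsumnil n1 n hn1 hcn1 hn hdn, Or.inl ?_⟩
    rw [hsplit, hca, h]
    push_cast
    rw [one_mul]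
    abel
  · obtain ⟨g, n1, hg, hcg, hn1, hcn1, hca⟩ := hpartC (-a)
    have hca' : c * a = -g + -n1 := by
      rw [mul_neg] at hca
      rw [← neg_neg (c * a), hca]
      abel
    refine ⟨g + (1 - c), -n1 + n, hsumid g hg hcg,
      hsumnil (-n1) n hn1.neg (by rw [mul_neg, hcn1]) hn hdn, Or.inr ?_⟩
    rw [hsplit, hca', h]
    push_cast
    rw [neg_mul, one_mul]
    abel

/-- **Result.** Q1 holds for every ring in which `2` is not a zero divisor, and Q1 is equivalent to
its case of characteristic two, in which it says that a clean ring all of whose units are nil-clean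
is nil-clean. -/
theorem result :
    (∀ (R : Type u) [Ring R], CleanRing R → UWNC R → (∀ x : R, 2 * x = 0 → x = 0) → WNCRing R) ∧
    ((∀ (R : Type u) [Ring R], CleanRing R → UWNC R → WNCRing R) ↔
      (∀ (R : Type u) [Ring R], (2 : R) = 0 → CleanRing R → UNC R → NCRing R)) := by
  refine ⟨?_, ?_, ?_⟩
  · intro R _ hC hR h2 a
    obtain ⟨c, hcc, hcen, ⟨M, hM⟩, h3, hT⟩ := exists_split hC hR
    have hpow : ∀ (k : ℕ) (x : R), (2 : R) ^ k * x = 0 → x = 0 := by
      intro k
      induction k with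
      | zero => intro x hx; simpa using hx
      | succ k ih =>
        intro x hx
        rw [pow_succ, mul_assoc] at hx
        exact h2 _ (ih _ hx)
    have hc0 : c = 0 := hpow M c hM
    subst hc0
    obtain ⟨j, n, hj, hn, -, h⟩ := part_three hC hR hcc hcen h3 hT a
    rw [sub_zero, one_mul, mul_one] at h
    rcases hj with rfl | rfl | rfl
    · exact ⟨0, n, IsIdempotentElem.zero, hn, Or.inl (by rw [h]; push_cast; rfl)⟩
    · exact ⟨1, n, IsIdempotentElem.one, hn, Or.inl (by rw [h]; push_cast; rfl)⟩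
    · exact ⟨1, n, IsIdempotentElem.one, hn, Or.inr (by rw [h]; push_cast; rfl)⟩
  · intro H S _ h2 hC hU a
    obtain ⟨e, n, he, hn, h | h⟩ := H S hC (fun x hx => by
      obtain ⟨e, n, he, hn, h⟩ := hU x hx
      exact ⟨e, n, he, hn, Or.inl h⟩) a
    · exact ⟨e, n, he, hn, h⟩
    · refine ⟨e, n, he, hn, ?_⟩
      have : -e = e := by rw [neg_eq_iff_add_eq_zero, ← two_mul, h2, zero_mul]
      rw [h, this]
  · intro H R _ hC hR
    exact reduction H R hC hR

end Pool.Agent.Results.MP_0ec41e_al.CharTwoReduction
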